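import Pool.Agent.Y734.I.StmsX
import Pool.Agent.Y734.I.Trd0

/-! The generic point of a projective variety. -/

set_option autoImplicit false

namespace Pool.Agent.Y734.I.GPT

open MvPolynomial Pool.Agent.Y734.I

attribute [-instance] DivisionRing.toRatAlgebra

/-- adding one generator raises the transcendence degree by at most one -/
lemma gpt_abs {κ K : Type} [Field κ] [Field K] [Algebra ℚ κ] [Algebra ℚ K] [Algebra K κ]
    [IsScalarTower ℚ K κ] {N : ℕ} (x : Fin (N + 1) → κ) (j₀ : Fin (N + 1))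
    (h0 : x j₀ ≠ 0) (hK : ∀ j, ∃ a : K, algebraMap K κ a = x j / x j₀)
    (hgen : ∀ y : κ, ∃ F G : MvPolynomial (Fin (N + 1)) ℚ, aeval x G ≠ 0 ∧
      aeval x G * y = aeval x F) :
    Algebra.trdeg ℚ κ ≤ Algebra.trdeg ℚ K + 1 := by
  have h1 : Algebra.trdeg ℚ K + Algebra.trdeg K κ = Algebra.trdeg ℚ κ := trdeg_add_eq ..
  rw [← h1]
  refine add_le_add le_rfl ?_
  have hx : ∀ j, x j ∈ Algebra.adjoin K ({x j₀} : Set κ) := by
    intro j
    obtain ⟨a, ha⟩ := hK j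
    have h2 : x j = algebraMap K κ a * x j₀ := by
      rw [ha, div_mul_cancel₀ _ h0]
    rw [h2]
    exact mul_mem (Subalgebra.algebraMap_mem _ _) (Algebra.subset_adjoin rfl)
  have hF : ∀ F : MvPolynomial (Fin (N + 1)) ℚ, aeval x F ∈ Algebra.adjoin K ({x j₀} : Set κ) := by
    intro F
    have h2 : aeval x F ∈ Algebra.adjoin ℚ (Set.range x) := by
      rw [Algebra.adjoin_range_eq_range_aeval]
      exact ⟨F, rfl⟩
    have h3 : Algebra.adjoin ℚ (Set.range x) ≤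
        (Algebra.adjoin K ({x j₀} : Set κ)).restrictScalars ℚ := by
      rw [Algebra.adjoin_le_iff]
      rintro _ ⟨j, rfl⟩
      exact hx j
    exact h3 h2
  have : Algebra.IsAlgebraic (Algebra.adjoin K ({x j₀} : Set κ)) κ := by
    refine ⟨fun y => ?_⟩
    obtain ⟨F, G, hG, h⟩ := hgen y
    refine ⟨Polynomial.C ⟨aeval x G, hF G⟩ * Polynomial.X - Polynomial.C ⟨aeval x F, hF F⟩,
      ?_, ?_⟩
    · intro h2
      have h3 := congrArg (fun p => p.coeff 1) h2
      simp only [Polynomial.coeff_sub, Polynomial.coeff_C_mul, Polynomial.coeff_X_one, mul_one,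
        Polynomial.coeff_C_of_ne_zero one_ne_zero, sub_zero, Polynomial.coeff_zero] at h3
      exact hG (congrArg Subtype.val h3)
    · rw [map_sub, map_mul, Polynomial.aeval_C, Polynomial.aeval_C, Polynomial.aeval_X]
      show aeval x G * y - aeval x F = 0
      rw [h, sub_self]
  have h2 := Algebra.IsAlgebraic.trdeg_le_cardinalMk K ({x j₀} : Set κ)
  rwa [Cardinal.mk_singleton] at h2

/-- `κ` has transcendence degree at most one more than the ratios of the coordinates -/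
lemma gpt_aux {κ : Type} [Field κ] [Algebra ℚ κ] {N : ℕ} (x : Fin (N + 1) → κ) (j₀ : Fin (N + 1))
    (h0 : x j₀ ≠ 0) (hgen : ∀ y : κ, ∃ F G : MvPolynomial (Fin (N + 1)) ℚ, aeval x G ≠ 0 ∧
      aeval x G * y = aeval x F) :
    Algebra.trdeg ℚ κ ≤ trd (rat x) + 1 := by
  rw [trd_eq]
  exact gpt_abs x j₀ h0
    (fun j => ⟨⟨x j / x j₀, IntermediateField.subset_adjoin ℚ _ ⟨j, j₀, rfl⟩⟩, rfl⟩) hgen

theorem gpt : GptStmt := by
  intro N n 𝔭 hp hd
  have : IsDomain (MvPolynomial (Fin (N + 1)) ℚ ⧸ 𝔭) := Ideal.Quotient.isDomain 𝔭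
  obtain ⟨x, hxdef⟩ : ∃ x : Fin (N + 1) → FractionRing (MvPolynomial (Fin (N + 1)) ℚ ⧸ 𝔭),
    x = fun j => algebraMap (MvPolynomial (Fin (N + 1)) ℚ ⧸ 𝔭) _ (Ideal.Quotient.mk 𝔭 (X j)) :=
    ⟨_, rfl⟩
  have hae : ∀ F : MvPolynomial (Fin (N + 1)) ℚ, aeval x F =
      algebraMap (MvPolynomial (Fin (N + 1)) ℚ ⧸ 𝔭)
        (FractionRing (MvPolynomial (Fin (N + 1)) ℚ ⧸ 𝔭)) (Ideal.Quotient.mk 𝔭 F) := by
    intro F
    have h1 : aeval x = (IsScalarTower.toAlgHom ℚ (MvPolynomial (Fin (N + 1)) ℚ ⧸ 𝔭)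
        (FractionRing (MvPolynomial (Fin (N + 1)) ℚ ⧸ 𝔭))).comp (Ideal.Quotient.mkₐ ℚ 𝔭) := by
      apply MvPolynomial.algHom_ext
      intro j
      rw [aeval_X, hxdef]
      rfl
    rw [h1]
    rfl
  have hinj : Function.Injective (algebraMap (MvPolynomial (Fin (N + 1)) ℚ ⧸ 𝔭)
      (FractionRing (MvPolynomial (Fin (N + 1)) ℚ ⧸ 𝔭))) := IsFractionRing.injective _ _
  have hx0 : x ≠ 0 := by
    intro hx
    have h1 : Algebra.trdeg ℚ (MvPolynomial (Fin (N + 1)) ℚ ⧸ 𝔭) = 0 := by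
      have : Algebra.IsAlgebraic ℚ (MvPolynomial (Fin (N + 1)) ℚ ⧸ 𝔭) := by
        refine ⟨fun a => ?_⟩
        obtain ⟨F, rfl⟩ := Ideal.Quotient.mk_surjective a
        have h2 : Ideal.Quotient.mk 𝔭 F =
            algebraMap ℚ (MvPolynomial (Fin (N + 1)) ℚ ⧸ 𝔭) (constantCoeff F) := by
          apply hinj
          rw [← hae F, hx, aeval_zero, ← IsScalarTower.algebraMap_apply]
        rw [h2]
        exact isAlgebraic_algebraMap _
      exact trdeg_eq_zero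
    rw [h1] at hd
    have h3 : (0 : Cardinal) < n + 1 := by positivity
    exact absurd hd (ne_of_lt h3)
  obtain ⟨j₀, hj₀⟩ : ∃ j₀, x j₀ ≠ 0 := by
    by_contra h
    push Not at h
    exact hx0 (funext h)
  refine ⟨FractionRing (MvPolynomial (Fin (N + 1)) ℚ ⧸ 𝔭), inferInstance, inferInstance,
    x, hx0, ?_, ?_⟩
  · intro F hF
    rw [hae, Ideal.Quotient.eq_zero_iff_mem.2 hF, map_zero]
  · have h1 : Algebra.trdeg ℚ (FractionRing (MvPolynomial (Fin (N + 1)) ℚ ⧸ 𝔭)) ≤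
        trd (rat x) + 1 := by
      apply gpt_aux x j₀ hj₀
      intro y
      obtain ⟨a, b, hb, rfl⟩ := IsFractionRing.div_surjective
        (A := MvPolynomial (Fin (N + 1)) ℚ ⧸ 𝔭) y
      obtain ⟨F, rfl⟩ := Ideal.Quotient.mk_surjective a
      obtain ⟨G, rfl⟩ := Ideal.Quotient.mk_surjective b
      have hG : aeval x G ≠ 0 := by
        rw [hae]
        intro h
        exact nonZeroDivisors.ne_zero hb (hinj (by rw [h, map_zero]))
      refine ⟨F, G, hG, ?_⟩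
      rw [← hae, ← hae, mul_div_cancel₀ _ hG]
    have h2 : Algebra.trdeg ℚ (MvPolynomial (Fin (N + 1)) ℚ ⧸ 𝔭) ≤
        Algebra.trdeg ℚ (FractionRing (MvPolynomial (Fin (N + 1)) ℚ ⧸ 𝔭)) :=
      trdeg_le_of_injective (IsScalarTower.toAlgHom ℚ _ _) hinj
    rw [hd] at h2
    have h3 := h2.trans h1
    rcases lt_or_ge (trd (rat x)) Cardinal.aleph0 with h4 | h4
    · obtain ⟨m, hm⟩ := Cardinal.lt_aleph0.1 h4
      rw [hm] at h3 ⊢
      have h5 : n + 1 ≤ m + 1 := by exact_mod_cast h3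
      have h6 : n ≤ m := by omega
      exact_mod_cast h6
    · exact (Cardinal.natCast_lt_aleph0 (n := n)).le.trans h4

end Pool.Agent.Y734.I.GPT
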